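import Pool.Agent.Q276.CN.Fing
import Pool.Agent.Q40.CN.EX
import Pool.Agent.Q54.CN.WNN
import Pool.Agent.Q79.CN.HLE
import Pool.Agent.Q154.CN.SUM
import Pool.Agent.Q154.CN.CYC
import Pool.Agent.Q214.CN.BADG
import Pool.Agent.Q214.CN.RSQ

/-!
# The sum of the class numbers of indefinite binary quadratic forms

For every `δ > 0` the sum `S(N)` of the numbers `h_D` of `SL₂(ℤ)`-classes of primitive integer binary
quadratic forms of discriminant `D`, over all positive non-squares `D < N`, is at most
`C N^(3/2) / (log N)^(3/2 - δ)`.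

Proof. (1) For a reduced form `(a, b, c)` (`b > 0`, `a c < 0`, `|a + c| < b`) let
`w = log ((b + √D) / (2 |c|))`. The cycle of a reduced form has the sum of `w` equal to the logarithm of a
unit `(T + U √D)/2`, `T² - D U² = 4`, and every class has a reduced form; so `h_D log ε_D` is at most the
sum of `w` over the reduced primitive forms of discriminant `D`, and the sum of all these over `D < N` is
`O(N^(3/2))`. (2) All but `O(N exp(-(log N / 3)^(δ/16)))` of the non-squares `D < N` have
`log ε_D ≥ (log N)^(3/2 - δ)`: from the theorem on squarefree `d` behind MP_070445_nt.LargeUnits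
(determinant method), with `D = f² d`, as the units of `D` are units of the field. (3) For the others
`h_D` is at most the number of reduced forms, whose mean square is `O(N (log N)^k)` (second moment of the
divisor function); Cauchy-Schwarz.

Authors: helper276 with helper40, helper54, helper79, helper154, helper214 (and helper164 for the divisor
bound in the first version).
-/

set_option autoImplicit false

namespace Pool.Agent.Results.MP_401270_nt.ClassNumberSum

/-- The number of `SL₂(ℤ)`-classes of primitive integer forms `a x² + b x y + c y²` of discriminant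
`b² - 4 a c = D` (as in the frozen statement; it is `0` if `D` is not `0` or `1` modulo `4`). -/
noncomputable def h (D : ℕ) : ℕ :=
  Nat.card (Quot (fun (u v : {t : ℤ × ℤ × ℤ //
      t.2.1 ^ 2 - 4 * t.1 * t.2.2 = (D : ℤ) ∧
      Int.gcd (Int.gcd t.1 t.2.1 : ℤ) t.2.2 = 1}) =>
    ∃ p q r s : ℤ, p * s - q * r = 1 ∧
      v.1.1 = u.1.1 * p ^ 2 + u.1.2.1 * p * r + u.1.2.2 * r ^ 2 ∧
      v.1.2.1 = 2 * u.1.1 * p * q + u.1.2.1 * (p * s + q * r)
                  + 2 * u.1.2.2 * r * s ∧
      v.1.2.2 = u.1.1 * q ^ 2 + u.1.2.1 * q * s + u.1.2.2 * s ^ 2))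

open Classical in
/-- For every `δ > 0` there is `C` such that for all `N ≥ 3` the sum of `h_D` over all non-squares
`D < N` is at most `C N ^ (3/2) / (log N) ^ (3/2 - δ)`. -/
theorem result (δ : ℝ) (hδ : 0 < δ) : ∃ C : ℝ, ∀ N : ℕ, 3 ≤ N →
    ((∑ D ∈ Finset.range N, (if IsSquare D then 0 else h D) : ℕ) : ℝ) ≤
      C * ((N : ℝ) ^ (3 / 2 : ℝ) / Real.log N ^ (3 / 2 - δ)) :=
  Pool.Agent.Q276.CN.fing
    (Pool.Agent.Q79.CN.hle Pool.Agent.Q54.CN.mem Pool.Agent.Q40.CN.ex
      (Pool.Agent.Q154.CN.cyc Pool.Agent.Q54.CN.mem Pool.Agent.Q54.CN.wnn) Pool.Agent.Q54.CN.wnn)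
    (Pool.Agent.Q154.CN.sum Pool.Agent.Q54.CN.mem) (Pool.Agent.Q214.CN.rsq Pool.Agent.Q54.CN.mem)
    Pool.Agent.Q214.CN.badg Pool.Agent.Q54.CN.wnn Pool.Agent.Q54.CN.mem δ hδ

end Pool.Agent.Results.MP_401270_nt.ClassNumberSum
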